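import Mathlib

/-!
# (I)-envelopes and the two distances: definitions
-/

set_option autoImplicit false
open Filter Topology
open scoped ENNReal

namespace Q99.IE2

variable {𝕜 : Type} [RCLike 𝕜] {X : Type} [NormedAddCommGroup X] [NormedSpace 𝕜 X]

/-- The weak* closure of a subset of the dual space. -/
def wclosure (B : Set (StrongDual 𝕜 X)) : Set (StrongDual 𝕜 X) :=
  StrongDual.toWeakDual ⁻¹' (closure (StrongDual.toWeakDual '' B : Set (WeakDual 𝕜 X)))

/-- `K (B)` for a sequence of sets `B`: the norm closed convex hull of the union of the weak* closed convex hulls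
of the sets `B k`. -/
def KK (B : ℕ → Set (StrongDual 𝕜 X)) : Set (StrongDual 𝕜 X) :=
  closure (convexHull ℝ (⋃ k, wclosure (convexHull ℝ (B k))))

/-- The (I)-envelope: the intersection of the sets `K (B)` over all countable covers of `A`. -/
def Ienv (A : Set (StrongDual 𝕜 X)) : Set (StrongDual 𝕜 X) :=
  {ξ | ∀ B : ℕ → Set (StrongDual 𝕜 X), (⋃ k, B k) = A → ξ ∈ KK B}

/-- `d₁ (η)`: the norm distance from `η` to the (I)-envelope of `A`. -/
noncomputable def d1 (A : Set (StrongDual 𝕜 X)) (η : StrongDual 𝕜 X) : ℝ≥0∞ := Metric.infEDist η (Ienv A)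

/-- `s_η (x) = inf_k Re η (x_k) - sup_{ξ ∈ A} limsup_k Re ξ (x_k)`. -/
noncomputable def sEta (A : Set (StrongDual 𝕜 X)) (η : StrongDual 𝕜 X) (x : ℕ → X) : EReal :=
  (⨅ k, ((RCLike.re (η (x k)) : ℝ) : EReal)) -
    ⨆ ξ ∈ A, limsup (fun k => ((RCLike.re (ξ (x k)) : ℝ) : EReal)) atTop

/-- `d₂ (η)`: the supremum of `s_η (x)` over the sequences `x` in the closed unit ball. -/
noncomputable def d2 (A : Set (StrongDual 𝕜 X)) (η : StrongDual 𝕜 X) : EReal :=
  ⨆ (x : ℕ → X) (_ : ∀ k, x k ∈ Metric.closedBall (0 : X) 1), sEta A η x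

end Q99.IE2
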