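import Pool.Agent.Q99.IE2.Defs
import Pool.Agent.Q99.RD.SV
import Pool.Agent.Q100.Ulam

/-!
# The distances `d₁` and `d₂` are not equivalent
-/

set_option autoImplicit false
open Filter Topology
open scoped ENNReal

namespace Q99.IE2

open Q99.RD (LI)
open Q100.Ulam (Om)

section general

variable {𝕜 : Type} [RCLike 𝕜] {X : Type} [NormedAddCommGroup X] [NormedSpace 𝕜 X]

theorem convex_re_ge (x : X) (c : ℝ) : Convex ℝ {ξ : StrongDual 𝕜 X | c ≤ RCLike.re (ξ x)} := by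
  intro a ha b hb s t hs ht hst
  have h1 : c ≤ RCLike.re (a x) := ha
  have h2 : c ≤ RCLike.re (b x) := hb
  have h3 : RCLike.re ((s • a + t • b) x) = s * RCLike.re (a x) + t * RCLike.re (b x) := by
    show RCLike.re (s • a x + t • b x) = _
    rw [map_add, RCLike.smul_re, RCLike.smul_re]
  show c ≤ RCLike.re ((s • a + t • b) x)
  rw [h3]
  calc c = s * c + t * c := by rw [← add_mul, hst, one_mul]
    _ ≤ s * RCLike.re (a x) + t * RCLike.re (b x) :=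
      add_le_add (mul_le_mul_of_nonneg_left h1 hs) (mul_le_mul_of_nonneg_left h2 ht)

theorem wclosure_re_ge {B : Set (StrongDual 𝕜 X)} {x : X} {c : ℝ} (h : ∀ ξ ∈ B, c ≤ RCLike.re (ξ x))
    {ξ : StrongDual 𝕜 X} (hξ : ξ ∈ wclosure (convexHull ℝ B)) : c ≤ RCLike.re (ξ x) := by
  have hcl : IsClosed {w : WeakDual 𝕜 X | c ≤ RCLike.re (w x)} :=
    isClosed_le continuous_const (RCLike.continuous_re.comp (WeakDual.eval_continuous x))
  have hsub : (StrongDual.toWeakDual '' (convexHull ℝ B) : Set (WeakDual 𝕜 X)) ⊆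
      {w : WeakDual 𝕜 X | c ≤ RCLike.re (w x)} := by
    rintro _ ⟨y, hy, rfl⟩
    exact (convexHull_min h (convex_re_ge x c)) hy
  have h1 : StrongDual.toWeakDual ξ ∈
    (closure (StrongDual.toWeakDual '' (convexHull ℝ B)) : Set (WeakDual 𝕜 X)) := hξ
  have h2 : StrongDual.toWeakDual ξ ∈ {w : WeakDual 𝕜 X | c ≤ RCLike.re (w x)} := closure_minimal hsub hcl h1
  exact h2

theorem continuous_re_eval (x : X) : Continuous (fun ξ : StrongDual 𝕜 X => RCLike.re (ξ x)) :=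
  RCLike.continuous_re.comp (ContinuousLinearMap.apply 𝕜 𝕜 x).continuous

theorem Ienv_re_ge {A : Set (StrongDual 𝕜 X)} {x : X} {c : ℝ} (h : ∀ ξ ∈ A, c ≤ RCLike.re (ξ x))
    {ξ : StrongDual 𝕜 X} (hξ : ξ ∈ Ienv A) : c ≤ RCLike.re (ξ x) := by
  have h1 := hξ (fun _ => A) (by rw [Set.iUnion_const])
  have hcl : IsClosed {y : StrongDual 𝕜 X | c ≤ RCLike.re (y x)} :=
    isClosed_le continuous_const (continuous_re_eval x)
  refine closure_minimal (convexHull_min ?_ (convex_re_ge x c)) hcl h1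
  intro y hy
  obtain ⟨_, hy⟩ := Set.mem_iUnion.1 hy
  exact wclosure_re_ge h hy

theorem Ienv_re_eq {A : Set (StrongDual 𝕜 X)} {x : X} {c : ℝ} (h : ∀ ξ ∈ A, RCLike.re (ξ x) = c)
    {ξ : StrongDual 𝕜 X} (hξ : ξ ∈ Ienv A) : RCLike.re (ξ x) = c := by
  have h1 := Ienv_re_ge (x := x) (c := c) (fun ξ hξ => (h ξ hξ).ge) hξ
  have h2 := Ienv_re_ge (x := -x) (c := -c) (fun ξ hξ => by rw [map_neg, map_neg, h ξ hξ]) hξ
  rw [map_neg, map_neg] at h2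
  linarith

/-- values on vectors which vanish on larger and larger parts of `A` -/
theorem Ienv_small {A : Set (StrongDual 𝕜 X)} {ξ : StrongDual 𝕜 X} (hξ : ξ ∈ Ienv A)
    (B : ℕ → Set (StrongDual 𝕜 X)) (hB : (⋃ k, B k) = A) (x : ℕ → X) (hx : ∀ n, ‖x n‖ ≤ 1)
    (hBx : ∀ k n, k ≤ n → ∀ η ∈ B k, RCLike.re (η (x n)) ≤ 0) {ε : ℝ} (hε : 0 < ε) :
    ∃ N, ∀ n, N ≤ n → RCLike.re (ξ (x n)) ≤ ε := by
  have h1 := hξ B hB
  unfold KK at h1
  rw [Metric.mem_closure_iff] at h1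
  obtain ⟨ζ, hζ, hd⟩ := h1 ε hε
  have h2 : convexHull ℝ (⋃ k, wclosure (convexHull ℝ (B k))) ⊆
      {ζ : StrongDual 𝕜 X | ∃ N, ∀ n, N ≤ n → 0 ≤ RCLike.re (ζ (-x n))} := by
    apply convexHull_min
    · intro ζ hζ
      obtain ⟨k, hk⟩ := Set.mem_iUnion.1 hζ
      refine ⟨k, fun n hn => wclosure_re_ge (fun η hη => ?_) hk⟩
      rw [map_neg, map_neg]
      have := hBx k n hn η hη
      linarith
    · rintro a ⟨N, hN⟩ b ⟨M, hM⟩ s t hs ht hst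
      refine ⟨max N M, fun n hn => ?_⟩
      exact convex_re_ge (-x n) 0 (hN n ((le_max_left _ _).trans hn)) (hM n ((le_max_right _ _).trans hn)) hs ht hst
  obtain ⟨N, hN⟩ := h2 hζ
  refine ⟨N, fun n hn => ?_⟩
  have h3 := hN n hn
  rw [map_neg, map_neg] at h3
  have h4 : ‖(ξ - ζ) (x n)‖ ≤ ε := by
    refine ((ξ - ζ).le_opNorm _).trans ?_
    rw [dist_eq_norm] at hd
    nlinarith [hx n, norm_nonneg (x n), norm_nonneg (ξ - ζ)]
  have h5 : RCLike.re ((ξ - ζ) (x n)) ≤ ‖(ξ - ζ) (x n)‖ := RCLike.re_le_norm _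
  have h6 : (ξ - ζ) (x n) = ξ (x n) - ζ (x n) := rfl
  rw [h6, map_sub] at h5
  rw [h6] at h4
  linarith

end general

variable (𝕜 : Type) [RCLike 𝕜]

/-- the bounded functions with countable support -/
noncomputable def ZS : Submodule 𝕜 (LI 𝕜 Om) where
  carrier := {x | {t | x t ≠ 0}.Countable}
  add_mem' := fun {a b} ha hb => by
    refine (Set.Countable.union ha hb).mono fun t ht => ?_
    by_contra hc
    rw [Set.mem_union, not_or] at hc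
    have h1 : a t = 0 := not_not.1 hc.1
    have h2 : b t = 0 := not_not.1 hc.2
    exact ht (by
      show a t + b t = 0
      rw [h1, h2, add_zero])
  zero_mem' := by
    have : {t : Om | (0 : LI 𝕜 Om) t ≠ 0} = ∅ := by
      ext t
      simp
    show {t : Om | (0 : LI 𝕜 Om) t ≠ 0}.Countable
    rw [this]
    exact Set.countable_empty
  smul_mem' := fun c a ha => by
    refine Set.Countable.mono (fun t ht => ?_) ha
    intro h1
    exact ht (by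
      show c * a t = 0
      rw [h1, mul_zero])

instance isClosed_ZS : IsClosed (ZS 𝕜 : Set (LI 𝕜 Om)) := by
  rw [← isSeqClosed_iff_isClosed]
  intro u a hu ha
  refine (Set.countable_iUnion fun n => hu n).mono fun t ht => ?_
  by_contra hc
  rw [Set.mem_iUnion, not_exists] at hc
  have h1 : ∀ n, u n t = 0 := fun n => not_not.1 (hc n)
  apply ht
  show a t = 0
  have h2 : ∀ ε : ℝ, 0 < ε → ‖a t‖ ≤ ε := by
    intro ε hε
    obtain ⟨N, hN⟩ := Metric.tendsto_atTop.1 ha ε hε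
    have h3 := (hN N le_rfl).le
    rw [dist_eq_norm] at h3
    have h4 := (Q99.RD.LI_apply_le (u N - a) t).trans h3
    have h5 : (u N - a) t = u N t - a t := rfl
    rw [h5, h1 N, zero_sub, norm_neg] at h4
    exact h4
  exact norm_le_zero_iff.1 (le_of_forall_pos_le_add fun ε hε => by
    rw [zero_add]
    exact h2 ε hε)

/-- the space -/
abbrev XX := ZS 𝕜 × LI 𝕜 Om

theorem evL_exists (t : Om) : ∃ f : StrongDual 𝕜 (LI 𝕜 Om), (∀ x, f x = x t) ∧ ‖f‖ ≤ 1 := by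
  let L : LI 𝕜 Om →ₗ[𝕜] 𝕜 :=
    { toFun := fun x => x t
      map_add' := fun _ _ => rfl
      map_smul' := fun _ _ => rfl }
  have hL : ∀ x, ‖L x‖ ≤ 1 * ‖x‖ := fun x => by
    rw [one_mul]
    exact Q99.RD.LI_apply_le x t
  exact ⟨L.mkContinuous 1 hL, fun _ => rfl, L.mkContinuous_norm_le zero_le_one hL⟩

/-- point evaluation -/
noncomputable def ev (t : Om) : StrongDual 𝕜 (LI 𝕜 Om) := (evL_exists 𝕜 t).choose
theorem ev_apply (t : Om) (x : LI 𝕜 Om) : ev 𝕜 t x = x t := (evL_exists 𝕜 t).choose_spec.1 x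

/-- the functionals `(z, y) ↦ z t + δ y t` -/
noncomputable def xi (δ : ℝ) (t : Om) : StrongDual 𝕜 (XX 𝕜) :=
  ((ev 𝕜 t).comp (ZS 𝕜).subtypeL).comp (ContinuousLinearMap.fst 𝕜 _ _) +
    (δ : 𝕜) • (ev 𝕜 t).comp (ContinuousLinearMap.snd 𝕜 _ _)

theorem xi_apply (δ : ℝ) (t : Om) (p : XX 𝕜) : xi 𝕜 δ t p = (p.1 : LI 𝕜 Om) t + (δ : 𝕜) * p.2 t := by
  show ev 𝕜 t (p.1 : LI 𝕜 Om) + (δ : 𝕜) * ev 𝕜 t p.2 = _
  rw [ev_apply, ev_apply]

/-- the set -/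
def AA (δ : ℝ) : Set (StrongDual 𝕜 (XX 𝕜)) := Set.range (xi 𝕜 δ)

theorem nonempty_Om : Nonempty Om := by
  by_contra h
  rw [not_nonempty_iff] at h
  exact Q100.Ulam.not_countable_Om inferInstance

theorem AA_nonempty (δ : ℝ) : (AA 𝕜 δ).Nonempty := by
  obtain ⟨t⟩ := nonempty_Om
  exact ⟨_, t, rfl⟩

theorem AA_bounded (δ : ℝ) : Bornology.IsBounded (AA 𝕜 δ) := by
  refine (isBounded_iff_forall_norm_le (E := StrongDual 𝕜 (XX 𝕜))).2 ⟨1 + |δ|, ?_⟩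
  rintro _ ⟨t, rfl⟩
  refine ContinuousLinearMap.opNorm_le_bound _ (by positivity) fun p => ?_
  rw [xi_apply]
  refine (norm_add_le _ _).trans ?_
  rw [norm_mul, RCLike.norm_ofReal]
  have h1 : ‖(p.1 : LI 𝕜 Om) t‖ ≤ ‖p‖ := (Q99.RD.LI_apply_le _ t).trans (norm_fst_le p)
  have h2 : ‖p.2 t‖ ≤ ‖p‖ := (Q99.RD.LI_apply_le _ t).trans (norm_snd_le p)
  nlinarith [abs_nonneg δ]

theorem d2_le {δ : ℝ} (hδ : 0 < δ) : d2 (AA 𝕜 δ) 0 ≤ (δ : EReal) := by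
  unfold d2
  refine iSup_le fun x => iSup_le fun hx => ?_
  unfold sEta
  have h1 : (⨅ k : ℕ, ((RCLike.re ((0 : StrongDual 𝕜 (XX 𝕜)) (x k)) : ℝ) : EReal)) ≤ 0 := by
    refine iInf_le_of_le 0 ?_
    simp
  have h2 : ∃ t : Om, ∀ k, ((x k).1 : LI 𝕜 Om) t = 0 := by
    by_contra hc
    push Not at hc
    apply Q100.Ulam.not_countable_Om
    rw [← Set.countable_univ_iff]
    refine (Set.countable_iUnion fun k => (x k).1.2).mono fun t _ => ?_
    obtain ⟨k, hk⟩ := hc t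
    exact Set.mem_iUnion.2 ⟨k, hk⟩
  obtain ⟨t, ht⟩ := h2
  have h3 : ((-δ : ℝ) : EReal) ≤
      ⨆ ξ ∈ AA 𝕜 δ, limsup (fun k => ((RCLike.re (ξ (x k)) : ℝ) : EReal)) atTop := by
    refine le_iSup₂_of_le (xi 𝕜 δ t) ⟨t, rfl⟩ ?_
    have h4 : ∀ k, ((-δ : ℝ) : EReal) ≤ ((RCLike.re (xi 𝕜 δ t (x k)) : ℝ) : EReal) := by
      intro k
      rw [EReal.coe_le_coe_iff, xi_apply, ht, zero_add, RCLike.re_ofReal_mul]
      have h5 := hx k
      rw [mem_closedBall_zero_iff] at h5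
      have h6 : ‖(x k).2 t‖ ≤ 1 := ((Q99.RD.LI_apply_le _ t).trans (norm_snd_le (x k))).trans h5
      have h7 := (abs_le.1 (RCLike.abs_re_le_norm ((x k).2 t))).1
      nlinarith
    calc ((-δ : ℝ) : EReal) = limsup (fun _ : ℕ => ((-δ : ℝ) : EReal)) atTop := (limsup_const _).symm
      _ ≤ _ := limsup_le_limsup (Filter.Eventually.of_forall h4)
  refine (EReal.sub_le_sub h1 h3).trans ?_
  rw [← EReal.coe_zero, ← EReal.coe_sub]
  simp

/-- the indicator functions -/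
theorem exists_one (S : Set Om) : ∃ x : LI 𝕜 Om, (∀ t, x t = Set.indicator S 1 t) ∧ ‖x‖ ≤ 1 :=
  Q99.RD.exists_LI (𝕜 := 𝕜) (Set.indicator S 1) 1 zero_le_one (fun t => by
    by_cases ht : t ∈ S
    · rw [Set.indicator_of_mem ht, Pi.one_apply, norm_one]
    · rw [Set.indicator_of_notMem ht, norm_zero]
      exact zero_le_one)

/-- the indicator functions -/
noncomputable def one (S : Set Om) : LI 𝕜 Om := (exists_one 𝕜 S).choose
theorem one_apply (S : Set Om) (t : Om) : one 𝕜 S t = Set.indicator S 1 t := (exists_one 𝕜 S).choose_spec.1 t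
theorem one_le (S : Set Om) : ‖one 𝕜 S‖ ≤ 1 := (exists_one 𝕜 S).choose_spec.2

theorem one_mem {S : Set Om} (hS : S.Countable) : one 𝕜 S ∈ ZS 𝕜 := by
  refine hS.mono fun t ht => ?_
  by_contra hc
  apply ht
  rw [one_apply, Set.indicator_of_notMem hc]

theorem re_xi_snd (δ : ℝ) (t : Om) (S : Set Om) :
    RCLike.re (xi 𝕜 δ t (0, one 𝕜 S)) = δ * Set.indicator S 1 t := by
  rw [xi_apply]
  show RCLike.re ((0 : LI 𝕜 Om) t + (δ : 𝕜) * one 𝕜 S t) = _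
  have h0 : (0 : LI 𝕜 Om) t = 0 := rfl
  rw [h0, zero_add, one_apply, RCLike.re_ofReal_mul]
  by_cases ht : t ∈ S
  · rw [Set.indicator_of_mem ht, Set.indicator_of_mem ht, Pi.one_apply, RCLike.one_re, Pi.one_apply]
  · rw [Set.indicator_of_notMem ht, Set.indicator_of_notMem ht, map_zero]

theorem re_xi_both (δ : ℝ) (t : Om) {S : Set Om} (hS : S.Countable) :
    RCLike.re (xi 𝕜 δ t ((δ : 𝕜) • (⟨one 𝕜 S, one_mem 𝕜 hS⟩ : ZS 𝕜), -one 𝕜 S)) = 0 := by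
  rw [xi_apply]
  show RCLike.re ((δ : 𝕜) * one 𝕜 S t + (δ : 𝕜) * -(one 𝕜 S t)) = _
  rw [mul_neg, add_neg_cancel, map_zero]

theorem isFinMeas {δ : ℝ} (hδ : 0 < δ) {ξ : StrongDual 𝕜 (XX 𝕜)} (hξ : ξ ∈ Ienv (AA 𝕜 δ)) :
    Q100.Ulam.IsFinMeas (fun S : Set Om => RCLike.re (ξ (0, one 𝕜 S))) where
  nonneg := fun S => by
    refine Ienv_re_ge ?_ hξ
    rintro _ ⟨t, rfl⟩
    rw [re_xi_snd]
    refine mul_nonneg hδ.le (Set.indicator_nonneg (fun _ _ => zero_le_one) _)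
  add := fun S S' h => by
    show RCLike.re (ξ (0, one 𝕜 (S ∪ S'))) = RCLike.re (ξ (0, one 𝕜 S)) + RCLike.re (ξ (0, one 𝕜 S'))
    have h1 : ((0, one 𝕜 (S ∪ S')) : XX 𝕜) = (0, one 𝕜 S) + (0, one 𝕜 S') := by
      rw [Prod.mk_add_mk, add_zero]
      congr 1
      apply lp.ext
      funext t
      show one 𝕜 (S ∪ S') t = one 𝕜 S t + one 𝕜 S' t
      rw [one_apply, one_apply, one_apply, Set.indicator_union_of_disjoint h]
    rw [h1, map_add, map_add]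
  cont := fun S hS hS0 => by
    have hB : (⋃ k, (fun k => xi 𝕜 δ '' (S k)ᶜ) k) = AA 𝕜 δ := by
      ext η
      rw [Set.mem_iUnion]
      constructor
      · rintro ⟨k, t, _, rfl⟩
        exact ⟨t, rfl⟩
      · rintro ⟨t, rfl⟩
        have h1 : t ∉ ⋂ n, S n := by
          rw [hS0]
          exact Set.notMem_empty t
        rw [Set.mem_iInter, not_forall] at h1
        obtain ⟨k, hk⟩ := h1
        exact ⟨k, t, hk, rfl⟩
    rw [Metric.tendsto_atTop]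
    intro ε hε
    obtain ⟨N, hN⟩ := Ienv_small hξ _ hB (fun n => ((0, one 𝕜 (S n)) : XX 𝕜)) (fun n => by
      rw [Prod.norm_def]
      show max ‖(0 : ZS 𝕜)‖ ‖one 𝕜 (S n)‖ ≤ 1
      rw [norm_zero]
      exact max_le zero_le_one (one_le 𝕜 _)) (by
      rintro k n hkn _ ⟨t, ht, rfl⟩
      rw [re_xi_snd, Set.indicator_of_notMem (fun h => ht (hS hkn h)), mul_zero]) (half_pos hε)
    refine ⟨N, fun n hn => ?_⟩
    have h1 : 0 ≤ RCLike.re (ξ (0, one 𝕜 (S n))) := by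
      refine Ienv_re_ge ?_ hξ
      rintro _ ⟨t, rfl⟩
      rw [re_xi_snd]
      refine mul_nonneg hδ.le (Set.indicator_nonneg (fun _ _ => zero_le_one) _)
    rw [Real.dist_eq, sub_zero, abs_of_nonneg h1]
    have := hN n hn
    linarith

theorem norm_ge {δ : ℝ} (hδ : 0 < δ) {ξ : StrongDual 𝕜 (XX 𝕜)} (hξ : ξ ∈ Ienv (AA 𝕜 δ)) : 1 ≤ ‖ξ‖ := by
  classical
  have hm := isFinMeas 𝕜 hδ hξ
  have huniv : RCLike.re (ξ (0, one 𝕜 Set.univ)) = δ := by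
    refine Ienv_re_eq ?_ hξ
    rintro _ ⟨t, rfl⟩
    rw [re_xi_snd, Set.indicator_univ, Pi.one_apply, mul_one]
  apply le_of_forall_pos_le_add
  intro ε hε
  obtain ⟨F, hF⟩ := Q100.Ulam.ulam hm (δ * ε) (mul_pos hδ hε)
  have h1 := hm.split Set.univ (F : Set Om)
  rw [Set.univ_inter, ← Set.compl_eq_univ_sdiff] at h1
  have hFc : (F : Set Om).Countable := F.countable_toSet
  have h2 : RCLike.re (ξ ((δ : 𝕜) • (⟨one 𝕜 (F : Set Om), one_mem 𝕜 hFc⟩ : ZS 𝕜), -one 𝕜 (F : Set Om))) = 0 := by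
    refine Ienv_re_eq ?_ hξ
    rintro _ ⟨t, rfl⟩
    exact re_xi_both 𝕜 δ t hFc
  have h3 : (((δ : 𝕜) • (⟨one 𝕜 (F : Set Om), one_mem 𝕜 hFc⟩ : ZS 𝕜), -one 𝕜 (F : Set Om)) : XX 𝕜) =
      (δ : 𝕜) • ((⟨one 𝕜 (F : Set Om), one_mem 𝕜 hFc⟩, 0) : XX 𝕜) - (0, one 𝕜 (F : Set Om)) := by
    rw [Prod.smul_mk, smul_zero, Prod.mk_sub_mk, sub_zero, zero_sub]
  rw [h3, map_sub, map_sub, map_smul, smul_eq_mul, RCLike.re_ofReal_mul, sub_eq_zero] at h2
  have h4 : ‖((⟨one 𝕜 (F : Set Om), one_mem 𝕜 hFc⟩, 0) : XX 𝕜)‖ ≤ 1 := by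
    rw [Prod.norm_def]
    show max ‖one 𝕜 (F : Set Om)‖ ‖(0 : LI 𝕜 Om)‖ ≤ 1
    rw [norm_zero]
    exact max_le (one_le 𝕜 _) zero_le_one
  have h5 : RCLike.re (ξ (⟨one 𝕜 (F : Set Om), one_mem 𝕜 hFc⟩, 0)) ≤ ‖ξ‖ := by
    refine (RCLike.re_le_norm _).trans ((ξ.le_opNorm _).trans ?_)
    nlinarith [norm_nonneg ξ]
  have h6 : δ = RCLike.re (ξ (0, one 𝕜 (F : Set Om))) + RCLike.re (ξ (0, one 𝕜 (F : Set Om)ᶜ)) := by
    rw [← huniv]
    exact h1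
  have h7 : δ ≤ δ * (‖ξ‖ + ε) := by
    have := mul_le_mul_of_nonneg_left h5 hδ.le
    nlinarith
  nlinarith

theorem main (c : ℝ) (hc : 1 ≤ c) : (c : EReal) * d2 (AA 𝕜 (1 / (2 * c))) 0 < ((d1 (AA 𝕜 (1 / (2 * c))) 0 : ℝ≥0∞) : EReal) := by
  have hc0 : 0 < c := by linarith
  have hδ : 0 < 1 / (2 * c) := by positivity
  have h1 : (1 : ℝ≥0∞) ≤ d1 (AA 𝕜 (1 / (2 * c))) 0 := by
    unfold d1
    rw [Metric.le_infEDist]
    intro ξ hξ
    have h3 : dist (0 : StrongDual 𝕜 (XX 𝕜)) ξ = ‖ξ‖ := dist_zero_left ξ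
    rw [edist_dist, h3, ← ENNReal.ofReal_one]
    exact ENNReal.ofReal_le_ofReal (norm_ge 𝕜 hδ hξ)
  have h2 : (c : EReal) * d2 (AA 𝕜 (1 / (2 * c))) 0 ≤ (c : EReal) * ((1 / (2 * c) : ℝ) : EReal) :=
    mul_le_mul_of_nonneg_left (d2_le 𝕜 hδ) (by exact_mod_cast hc0.le)
  refine h2.trans_lt ?_
  rw [← EReal.coe_mul]
  have h3 : c * (1 / (2 * c)) = 1 / 2 := by field_simp
  rw [h3]
  refine lt_of_lt_of_le ?_ (EReal.coe_ennreal_le_coe_ennreal_iff.2 h1)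
  rw [EReal.coe_ennreal_one, ← EReal.coe_one, EReal.coe_lt_coe_iff]
  norm_num

end Q99.IE2
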